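import Mathlib

namespace Pool.Agent.Results.MP_843c3c_an.Angles

open Filter Topology

/-- the space has the angle with parameter `ρ` -/
def HasAngle (X : Type) [NormedAddCommGroup X] [NormedSpace ℝ X] (ρ : ℝ) : Prop :=
  ∀ x y : X, x ≠ 0 → y ≠ 0 →
    |(‖‖x‖⁻¹ • x + ‖y‖⁻¹ • y‖ ^ 2 - ‖‖x‖⁻¹ • x - ‖y‖⁻¹ • y‖ ^ 2) / 4| *
      ((‖‖x‖⁻¹ • x + ‖y‖⁻¹ • y‖ ^ 2 + ‖‖x‖⁻¹ • x - ‖y‖⁻¹ • y‖ ^ 2) / 4) ^ ρ ≤ 1

/-- `none` is the class of all normed spaces, `some ρ` the class of those with the angle `ρ` -/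
def InClass (c : Option ℝ) (X : Type) [NormedAddCommGroup X] [NormedSpace ℝ X] : Prop :=
  match c with
  | none => True
  | some ρ => HasAngle X ρ

section general
variable {X : Type} [NormedAddCommGroup X] [NormedSpace ℝ X]

lemma of_unit (ρ : ℝ) (h : ∀ x y : X, ‖x‖ = 1 → ‖y‖ = 1 → ‖x - y‖ ^ 2 ≤ ‖x + y‖ ^ 2 →
    (‖x + y‖ ^ 2 - ‖x - y‖ ^ 2) / 4 * ((‖x + y‖ ^ 2 + ‖x - y‖ ^ 2) / 4) ^ ρ ≤ 1) :
    HasAngle X ρ := by
  intro x y hx hy
  have ux : ‖‖x‖⁻¹ • x‖ = 1 := norm_smul_inv_norm hx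
  have uy : ‖‖y‖⁻¹ • y‖ = 1 := norm_smul_inv_norm hy
  generalize ‖x‖⁻¹ • x = a at *
  generalize ‖y‖⁻¹ • y = b at *
  rcases le_total (‖a - b‖ ^ 2) (‖a + b‖ ^ 2) with h1 | h1
  · rw [abs_of_nonneg (by linarith)]; exact h a b ux uy h1
  · have := h a (-b) ux (by rw [norm_neg, uy]) (by rwa [sub_neg_eq_add, ← sub_eq_add_neg])
    rw [sub_neg_eq_add, ← sub_eq_add_neg] at this
    rw [abs_of_nonpos (by linarith), add_comm (‖a + b‖ ^ 2)]
    convert this using 2; ring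

def UC (X : Type) [NormedAddCommGroup X] (c : ℝ) : Prop :=
  ∀ x y : X, ‖x + y‖ ^ 2 + c * ‖x - y‖ ^ 2 ≤ 2 * ‖x‖ ^ 2 + 2 * ‖y‖ ^ 2

lemma angle_pos {c ρ : ℝ} (h : UC X c) (h0 : 0 ≤ ρ) (h1 : ρ * (1 - c) ≤ 1 + c) : HasAngle X ρ := by
  refine of_unit ρ fun x y hx hy hle => ?_
  have := h x y
  rw [hx, hy] at this
  have d0 : 0 ≤ ‖x - y‖ ^ 2 := by positivity
  generalize ‖x + y‖ ^ 2 = S at *
  generalize ‖x - y‖ ^ 2 = D at *
  have a1 : (S - D) / 4 ≤ Real.exp (-((1 + c) * (D / 4))) := by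
    have := Real.add_one_le_exp (-((1 + c) * (D / 4))); linarith
  have a2 : ((S + D) / 4) ^ ρ ≤ Real.exp ((1 - c) * (D / 4) * ρ) := by
    rw [Real.exp_mul]
    apply Real.rpow_le_rpow (by linarith) _ h0
    have := Real.add_one_le_exp ((1 - c) * (D / 4)); linarith
  calc _ ≤ Real.exp (-((1 + c) * (D / 4))) * Real.exp ((1 - c) * (D / 4) * ρ) :=
        mul_le_mul a1 a2 (Real.rpow_nonneg (by linarith) _) (Real.exp_pos _).le
    _ ≤ 1 := by rw [← Real.exp_add, Real.exp_le_one_iff]; nlinarith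

lemma dual_smooth {c : ℝ} (hc : 0 < c) (h : UC X c) (f g : StrongDual ℝ X) (hf : ‖f‖ = 1)
    (hg : ‖g‖ = 1) : 4 ≤ ‖f + g‖ ^ 2 + ‖f - g‖ ^ 2 / c := by
  have ex : ∀ f : StrongDual ℝ X, ‖f‖ = 1 → ∀ r < 1, ∃ x, ‖x‖ < 1 ∧ r < f x := by
    intro f hf r hr
    obtain ⟨x, h1, h2⟩ := f.exists_lt_apply_of_lt_opNorm (hf ▸ hr)
    rcases le_total 0 (f x) with h3 | h3
    · exact ⟨x, h1, by rwa [Real.norm_of_nonneg h3] at h2⟩
    · exact ⟨-x, by simpa using h1, by rw [map_neg]; rwa [Real.norm_of_nonpos h3] at h2⟩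
  by_contra hn
  push Not at hn
  obtain ⟨x, hx, fx⟩ := ex f hf ((‖f + g‖ ^ 2 + ‖f - g‖ ^ 2 / c) / 8 + 1 / 2) (by linarith)
  obtain ⟨y, hy, gy⟩ := ex g hg ((‖f + g‖ ^ 2 + ‖f - g‖ ^ 2 / c) / 8 + 1 / 2) (by linarith)
  have a1 := (le_abs_self _).trans ((f + g).le_opNorm (x + y))
  have a2 := (le_abs_self _).trans ((f - g).le_opNorm (x - y))
  simp only [ContinuousLinearMap.add_apply, ContinuousLinearMap.sub_apply, map_add, map_sub] at a1 a2
  have a3 := h x y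
  have x2 : ‖x‖ ^ 2 ≤ 1 := by nlinarith [norm_nonneg x]
  have y2 : ‖y‖ ^ 2 ≤ 1 := by nlinarith [norm_nonneg y]
  have a4 : 2 * (‖f - g‖ * ‖x - y‖) ≤ ‖f - g‖ ^ 2 / c + c * ‖x - y‖ ^ 2 := by
    have : ‖f - g‖ ^ 2 / c + c * ‖x - y‖ ^ 2 - 2 * (‖f - g‖ * ‖x - y‖) =
        (‖f - g‖ - c * ‖x - y‖) ^ 2 / c := by field_simp; ring
    have : 0 ≤ (‖f - g‖ - c * ‖x - y‖) ^ 2 / c := by positivity
    linarith
  nlinarith [sq_nonneg (‖f + g‖ - ‖x + y‖)]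

lemma angle_neg {c ρ : ℝ} (hc : 0 < c) (hc1 : c < 1) (h : UC X c) (h0 : 1 ≤ ρ)
    (h1 : ρ * (1 - c) ≤ 1 + c) : HasAngle (StrongDual ℝ X) (-ρ) := by
  refine of_unit _ fun x y hx hy hle => ?_
  have := dual_smooth hc h x y hx hy
  have d0 : 0 ≤ ‖x - y‖ ^ 2 := by positivity
  generalize ‖x + y‖ ^ 2 = S at *
  generalize ‖x - y‖ ^ 2 = D at *
  have e : 4 * c ≤ S * c + D := by
    have := mul_le_mul_of_nonneg_right this hc.le
    rwa [add_mul, div_mul_cancel₀ _ hc.ne'] at this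
  have p : 0 < (S + D) / 4 := by
    by_contra hn
    have : S = 0 := by linarith
    have : D = 0 := by linarith
    subst_vars; linarith
  rw [Real.rpow_neg p.le, ← div_eq_mul_inv, div_le_one (Real.rpow_pos_of_pos p _)]
  have b := one_add_mul_self_le_rpow_one_add (s := (S + D) / 4 - 1) (by linarith) h0
  rw [add_sub_cancel] at b
  refine le_trans ?_ b
  rcases le_total ((S + D) / 4) 1 with h2 | h2
  · have : c * ((ρ - 1) * (4 - (S + D))) ≤ c * (2 * D) := by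
      have : (ρ - 1) * (c * (4 - (S + D))) ≤ (ρ - 1) * ((1 - c) * D) :=
        mul_le_mul_of_nonneg_left (by linarith) (by linarith)
      nlinarith
    have := le_of_mul_le_mul_left this hc
    linarith
  · nlinarith

lemma fail (A B : ℝ → ℝ) (a b ρ : ℝ) (hA : HasDerivAt A a 0) (hB : HasDerivAt B b 0)
    (A0 : A 0 = 1) (B0 : B 0 = 1) (h : 0 < a + ρ * b) :
    ∀ᶠ t in 𝓝[>] 0, 1 < A t * B t ^ ρ := by
  have h1 := hA.fun_mul (hB.rpow_const (p := ρ) (Or.inl (by rw [B0]; norm_num)))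
  simp only [A0, B0, Real.one_rpow, mul_one, one_mul] at h1
  have h2 := (hasDerivAt_iff_tendsto_slope_zero.1 h1).mono_left (nhdsGT_le_nhdsNE 0)
  filter_upwards [h2.eventually (lt_mem_nhds (show 0 < a + b * ρ by linarith)),
    self_mem_nhdsWithin] with t ht ht0
  simp only [A0, B0, Real.one_rpow, mul_one, zero_add, smul_eq_mul] at ht
  have := (mul_pos_iff_of_pos_left (inv_pos.2 (show (0 : ℝ) < t from ht0))).1 ht
  linarith

lemma not_angle (ρ : ℝ) (x y : X) (hx : ‖x‖ = 1) (hy : ‖y‖ = 1)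
    (h : 1 < (‖x + y‖ ^ 2 - ‖x - y‖ ^ 2) / 4 * ((‖x + y‖ ^ 2 + ‖x - y‖ ^ 2) / 4) ^ ρ) :
    ¬ HasAngle X ρ := by
  intro H
  have := H x y (by rintro rfl; simp at hx) (by rintro rfl; simp at hy)
  simp only [hx, hy, inv_one, one_smul] at this
  have h2 := mul_le_mul_of_nonneg_right (le_abs_self ((‖x + y‖ ^ 2 - ‖x - y‖ ^ 2) / 4))
    (Real.rpow_nonneg (show 0 ≤ (‖x + y‖ ^ 2 + ‖x - y‖ ^ 2) / 4 by positivity) ρ)
  linarith

end general

/-- the plane normed by the maximum of two Euclidean norms -/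
def P (a : ℝ) : Submodule ℝ (ℂ × ℂ) where
  carrier := {p | p.1.im = a * p.2.im ∧ p.2.re = a * p.1.re}
  add_mem' := by rintro p q ⟨h1, h2⟩ ⟨h3, h4⟩; constructor <;> simp [*] <;> ring
  zero_mem' := by simp
  smul_mem' := by rintro t p ⟨h1, h2⟩; constructor <;> simp [*] <;> ring

def mk (a u v : ℝ) : P a := ⟨(⟨u, a * v⟩, ⟨a * u, v⟩), rfl, rfl⟩

lemma mk_add (a u v u' v' : ℝ) : mk a u v + mk a u' v' = mk a (u + u') (v + v') := by
  ext <;> simp [mk, Complex.ext_iff] <;> ring_nf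

lemma mk_sub (a u v u' v' : ℝ) : mk a u v - mk a u' v' = mk a (u - u') (v - v') := by
  ext <;> simp [mk, Complex.ext_iff] <;> ring_nf

lemma nsq (a : ℝ) (p : P a) : ‖p‖ ^ 2 =
    max (p.1.1.re ^ 2 + a ^ 2 * p.1.2.im ^ 2) (a ^ 2 * p.1.1.re ^ 2 + p.1.2.im ^ 2) := by
  have h1 : ‖p.1.1‖ ^ 2 = p.1.1.re ^ 2 + a ^ 2 * p.1.2.im ^ 2 := by
    rw [Complex.sq_norm, Complex.normSq_apply, p.2.1]; ring
  have h2 : ‖p.1.2‖ ^ 2 = a ^ 2 * p.1.1.re ^ 2 + p.1.2.im ^ 2 := by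
    rw [Complex.sq_norm, Complex.normSq_apply, p.2.2]; ring
  rw [← h1, ← h2]
  change (max ‖p.1.1‖ ‖p.1.2‖) ^ 2 = _
  rcases le_total ‖p.1.1‖ ‖p.1.2‖ with h | h
  · rw [max_eq_right h, max_eq_right (by gcongr)]
  · rw [max_eq_left h, max_eq_left (by gcongr)]

lemma nsq_mk (a u v : ℝ) : ‖mk a u v‖ ^ 2 = max (u ^ 2 + a ^ 2 * v ^ 2) (a ^ 2 * u ^ 2 + v ^ 2) :=
  nsq a _

lemma unit_of_sq {t : ℝ} (h0 : 0 ≤ t) (h : t ^ 2 = 1) : t = 1 := by nlinarith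

lemma P_UC (a : ℝ) (h : a ^ 2 ≤ 1) : UC (P a) (a ^ 2) := by
  intro x y
  simp only [nsq, Submodule.coe_add, Submodule.coe_sub, Prod.fst_add, Prod.snd_add, Prod.fst_sub,
    Prod.snd_sub, Complex.add_re, Complex.add_im, Complex.sub_re, Complex.sub_im]
  generalize x.1.1.re = u; generalize x.1.2.im = v; generalize y.1.1.re = s; generalize y.1.2.im = t
  have c0 : 0 ≤ a ^ 2 := by positivity
  generalize a ^ 2 = c at *
  have x1 := le_max_left (u ^ 2 + c * v ^ 2) (c * u ^ 2 + v ^ 2)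
  have x2 := le_max_right (u ^ 2 + c * v ^ 2) (c * u ^ 2 + v ^ 2)
  have y1 := le_max_left (s ^ 2 + c * t ^ 2) (c * s ^ 2 + t ^ 2)
  have y2 := le_max_right (s ^ 2 + c * t ^ 2) (c * s ^ 2 + t ^ 2)
  have p0 := sq_nonneg (u - s)
  have q0 := sq_nonneg (v - t)
  have cc : c * c ≤ 1 := by nlinarith
  have c2 : c * c ≤ c := by nlinarith
  have m1 : c * max ((u - s) ^ 2 + c * (v - t) ^ 2) (c * (u - s) ^ 2 + (v - t) ^ 2) ≤
      (u - s) ^ 2 + c * (v - t) ^ 2 := by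
    rcases max_cases ((u - s) ^ 2 + c * (v - t) ^ 2) (c * (u - s) ^ 2 + (v - t) ^ 2) with
      ⟨e, -⟩ | ⟨e, -⟩ <;> rw [e] <;> nlinarith
  have m2 : c * max ((u - s) ^ 2 + c * (v - t) ^ 2) (c * (u - s) ^ 2 + (v - t) ^ 2) ≤
      c * (u - s) ^ 2 + (v - t) ^ 2 := by
    rcases max_cases ((u - s) ^ 2 + c * (v - t) ^ 2) (c * (u - s) ^ 2 + (v - t) ^ 2) with
      ⟨e, -⟩ | ⟨e, -⟩ <;> rw [e] <;> nlinarith
  rcases max_cases ((u + s) ^ 2 + c * (v + t) ^ 2) (c * (u + s) ^ 2 + (v + t) ^ 2) with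
    ⟨e, -⟩ | ⟨e, -⟩ <;> rw [e] <;> nlinarith

lemma small (r : ℝ) (hr : 0 < r) : ∀ᶠ t in 𝓝[>] (0 : ℝ), 0 < t ∧ t < r :=
  Ioo_mem_nhdsGT hr

lemma P_not_pos (a ρ : ℝ) (h : a ^ 2 < 1) (hρ : 1 + a ^ 2 < ρ * (1 - a ^ 2)) :
    ¬ HasAngle (P a) ρ := by
  have c0 : 0 ≤ a ^ 2 := by positivity
  have hA : HasDerivAt (fun t : ℝ => 1 - (1 + a ^ 2) * t) (-(1 + a ^ 2)) 0 := by
    simpa only [id, mul_one] using ((hasDerivAt_id (0 : ℝ)).const_mul (1 + a ^ 2)).const_sub 1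
  have hB : HasDerivAt (fun t : ℝ => 1 + (1 - a ^ 2) * t) (1 - a ^ 2) 0 := by
    simpa using ((hasDerivAt_id (0 : ℝ)).const_mul (1 - a ^ 2)).const_add 1
  obtain ⟨t, ht, t0, t1⟩ := ((fail _ _ _ _ ρ hA hB (by simp) (by simp) (by linarith)).and
    (small (1 / 2) (by norm_num))).exists
  have hu : √(1 - a ^ 2 * t) ^ 2 = 1 - a ^ 2 * t := Real.sq_sqrt (by nlinarith)
  have hv : √t ^ 2 = t := Real.sq_sqrt t0.le
  have k : a ^ 2 * (1 - a ^ 2 * t) + t ≤ 1 := by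
    have : t * (1 + a ^ 2) ≤ 1 := by nlinarith
    nlinarith
  refine not_angle ρ (mk a (√(1 - a ^ 2 * t)) (√t)) (mk a (√(1 - a ^ 2 * t)) (-√t))
    (unit_of_sq (norm_nonneg _) ?_) (unit_of_sq (norm_nonneg _) ?_) ?_
  · rw [nsq_mk, hu, hv, max_eq_left (by linarith)]; ring
  · rw [nsq_mk, neg_sq, hu, hv, max_eq_left (by linarith)]; ring
  · rw [mk_add, mk_sub, nsq_mk, nsq_mk, max_eq_left (by nlinarith), max_eq_right (by nlinarith)]
    convert ht using 3 <;> nlinarith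

lemma P_not_neg (a ρ : ℝ) (h : a ^ 2 < 1) (hρ : 1 < ρ) : ¬ HasAngle (P a) (-ρ) := by
  have c0 : 0 ≤ a ^ 2 := by positivity
  have hd : HasDerivAt (fun t : ℝ => 1 - t) (-1) 0 := (hasDerivAt_id (0 : ℝ)).const_sub 1
  have hn : HasDerivAt (fun t : ℝ => 1 + a ^ 2 * (1 - t) ^ 2) (-(a ^ 2 * 2)) 0 := by
    simpa using ((hd.fun_pow 2).const_mul (a ^ 2)).const_add 1
  have n0 : (1 + a ^ 2 * (1 - 0) ^ 2 : ℝ) ≠ 0 := by positivity
  have hA := (hd.const_mul (1 + a ^ 2)).fun_div hn n0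
  have hB := ((((hd.fun_pow 2).const_add 1).const_mul ((1 + a ^ 2) / 2))).fun_div hn n0
  obtain ⟨t, ht, t0, t1⟩ := ((fail _ _ _ _ (-ρ) hA hB (by field_simp; ring) (by field_simp; ring)
    (by
      have : (1 + a ^ 2) ≠ 0 := by positivity
      simp only [sub_zero, one_pow, mul_one]
      have e : 0 < (ρ - 1) * ((1 - a ^ 2) / (1 + a ^ 2)) :=
        mul_pos (by linarith) (div_pos (by linarith) (by positivity))
      convert e using 1
      field_simp; ring)).and (small 1 one_pos)).exists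
  have s0 : 0 < 1 - t := by linarith
  have s1 : 1 - t < 1 := by linarith
  generalize 1 - t = s at *
  have n1 : 0 < 1 + a ^ 2 * s ^ 2 := by positivity
  set m := (√(1 + a ^ 2 * s ^ 2))⁻¹
  have hm : m ^ 2 = (1 + a ^ 2 * s ^ 2)⁻¹ := by rw [inv_pow, Real.sq_sqrt n1.le]
  have m0 : 0 < m ^ 2 := by rw [hm]; positivity
  have k : a ^ 2 * m ^ 2 + (m * s) ^ 2 ≤ m ^ 2 + a ^ 2 * (m * s) ^ 2 := by
    have : 0 ≤ m ^ 2 * ((1 - a ^ 2) * (1 - s ^ 2)) :=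
      mul_nonneg m0.le (mul_nonneg (by linarith) (by nlinarith))
    nlinarith
  refine not_angle _ (mk a m (m * s)) (mk a (m * s) m)
    (unit_of_sq (norm_nonneg _) ?_) (unit_of_sq (norm_nonneg _) ?_) ?_
  · rw [nsq_mk, max_eq_left k, mul_pow, hm]; field_simp
  · rw [nsq_mk, max_eq_right (by linarith), mul_pow, hm]; field_simp; ring
  · rw [mk_add, mk_sub, nsq_mk, nsq_mk, max_eq_left (by nlinarith), max_eq_left (by nlinarith)]
    have e1 : (m + m * s) ^ 2 + a ^ 2 * (m * s + m) ^ 2 = m ^ 2 * ((1 + a ^ 2) * (1 + s) ^ 2) := by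
      ring
    have e2 : (m - m * s) ^ 2 + a ^ 2 * (m * s - m) ^ 2 = m ^ 2 * ((1 + a ^ 2) * (1 - s) ^ 2) := by
      ring
    rw [e1, e2, hm]
    convert ht using 2
    · field_simp; ring
    · congr 1; field_simp; ring

noncomputable def F (a u v : ℝ) : StrongDual ℝ (P a) :=
  u • (Complex.reCLM.comp ((ContinuousLinearMap.fst ℝ ℂ ℂ).comp (P a).subtypeL)) +
    v • (Complex.imCLM.comp ((ContinuousLinearMap.snd ℝ ℂ ℂ).comp (P a).subtypeL))

lemma F_apply (a u v : ℝ) (p : P a) : F a u v p = u * p.1.1.re + v * p.1.2.im := by simp [F]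

lemma F_norm (a u v N s t : ℝ) (hN : 0 ≤ N)
    (h1 : ∀ x y : ℝ, (u * x + v * y) ^ 2 ≤
      N ^ 2 * max (x ^ 2 + a ^ 2 * y ^ 2) (a ^ 2 * x ^ 2 + y ^ 2))
    (h2 : max (s ^ 2 + a ^ 2 * t ^ 2) (a ^ 2 * s ^ 2 + t ^ 2) = 1) (h3 : u * s + v * t = N) :
    ‖F a u v‖ = N := by
  apply le_antisymm
  · refine ContinuousLinearMap.opNorm_le_bound _ hN fun p => ?_
    refine (pow_le_pow_iff_left₀ (by positivity) (by positivity) two_ne_zero).1 ?_
    rw [mul_pow, nsq, F_apply, Real.norm_eq_abs, sq_abs]; exact h1 _ _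
  · have := (F a u v).le_opNorm (mk a s t)
    rw [unit_of_sq (norm_nonneg _) ((nsq_mk a s t).trans h2), mul_one, F_apply] at this
    exact le_trans (h3 ▸ le_abs_self _) this

lemma D_not_neg (a ρ : ℝ) (h0 : 0 < a ^ 2) (h : a ^ 2 < 1) (hρ : 1 + a ^ 2 < ρ * (1 - a ^ 2)) :
    ¬ HasAngle (StrongDual ℝ (P a)) (-ρ) := by
  have hA : HasDerivAt (fun t : ℝ => 1 - (1 + a ^ 2) * t) (-(1 + a ^ 2)) 0 := by
    simpa only [id, mul_one] using ((hasDerivAt_id (0 : ℝ)).const_mul (1 + a ^ 2)).const_sub 1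
  have hB : HasDerivAt (fun t : ℝ => 1 - (1 - a ^ 2) * t) (-(1 - a ^ 2)) 0 := by
    simpa only [id, mul_one] using ((hasDerivAt_id (0 : ℝ)).const_mul (1 - a ^ 2)).const_sub 1
  obtain ⟨t, ht, t0, t1⟩ := ((fail _ _ _ _ (-ρ) hA hB (by simp) (by simp) (by linarith)).and
    (small (a ^ 2 / 2) (by positivity))).exists
  have an : a ≠ 0 := by rintro rfl; simp at h0
  have hu : √(1 - t) ^ 2 = 1 - t := Real.sq_sqrt (by linarith)
  have hv : √(a ^ 2 * t) ^ 2 = a ^ 2 * t := Real.sq_sqrt (by positivity)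
  have u0 : 0 ≤ √(1 - t) := by positivity
  have v0 : 0 ≤ √(a ^ 2 * t) := by positivity
  generalize √(1 - t) = u at *
  generalize √(a ^ 2 * t) = v at *
  have n1 : ∀ w : ℝ, w ^ 2 = a ^ 2 * t → ‖F a u w‖ = 1 := by
    intro w hw
    have e : (w / a ^ 2) ^ 2 = t / a ^ 2 := by rw [div_pow, hw]; field_simp
    refine F_norm a u w 1 u (w / a ^ 2) zero_le_one (fun x y => ?_) ?_ ?_
    · rw [one_pow, one_mul]
      refine le_trans ?_ (le_max_left _ _)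
      apply le_of_mul_le_mul_left _ h0
      have : a ^ 2 * (x ^ 2 + a ^ 2 * y ^ 2) =
          (a ^ 2 * u ^ 2 + w ^ 2) * (x ^ 2 + a ^ 2 * y ^ 2) := by rw [hu, hw]; ring
      rw [this]
      nlinarith [sq_nonneg (a ^ 2 * u * y - w * x)]
    · rw [e, hu, max_eq_left]
      · field_simp; ring
      · rw [mul_div_cancel₀ _ h0.ne', ← sub_nonneg]
        have : 1 - t + t - (a ^ 2 * (1 - t) + t / a ^ 2) =
            (1 - a ^ 2) * (a ^ 2 - t * (1 + a ^ 2)) / a ^ 2 := by field_simp; ring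
        rw [this]
        exact div_nonneg (mul_nonneg (by linarith) (by nlinarith)) h0.le
    · rw [← mul_div_assoc, ← pow_two, ← pow_two, hu, hw]; field_simp; ring
  refine not_angle _ (F a u v) (F a u (-v)) (n1 v hv) (n1 _ (by rw [neg_sq, hv])) ?_
  have e1 : F a u v + F a u (-v) = F a (2 * u) 0 := by ext p; simp [F_apply]; ring
  have e2 : F a u v - F a u (-v) = F a 0 (2 * v) := by ext p; simp [F_apply]; ring
  rw [e1, e2, F_norm a (2 * u) 0 (2 * u) 1 0 (by positivity) (fun x y => ?_) (by simp [h.le])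
    (by ring), F_norm a 0 (2 * v) (2 * v) 0 1 (by positivity) (fun x y => ?_) (by simp [h.le])
    (by ring)]
  · convert ht using 3 <;> nlinarith
  · rw [zero_mul, zero_add, mul_pow]
    gcongr
    exact le_trans (by nlinarith [sq_nonneg x]) (le_max_right _ _)
  · rw [zero_mul, add_zero, mul_pow]
    gcongr
    exact le_trans (by nlinarith [sq_nonneg y]) (le_max_left _ _)

lemma par (ρ : ℝ) (h : 1 < ρ) : ∃ a : ℝ, 0 < a ^ 2 ∧ a ^ 2 < 1 ∧ ρ * (1 - a ^ 2) = 1 + a ^ 2 := by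
  have p : 0 < (ρ - 1) / (ρ + 1) := div_pos (by linarith) (by linarith)
  refine ⟨√((ρ - 1) / (ρ + 1)), ?_⟩
  rw [Real.sq_sqrt p.le]
  refine ⟨p, (div_lt_one (by linarith)).2 (by linarith), ?_⟩
  have : ρ + 1 ≠ 0 := by linarith
  field_simp; ring

theorem result (α β γ δ : ℝ) (hγ : 1 < γ) (hδ : γ < δ) (hα : 1 < α) (hβ : α < β) :
    ∀ i j : Fin 5, i ≠ j → ∃ (X : Type) (_ : NormedAddCommGroup X) (_ : NormedSpace ℝ X),
      ¬ (InClass (![some (-δ), some (-γ), none, some α, some β] i) X ↔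
        InClass (![some (-δ), some (-γ), none, some α, some β] j) X) := by
  have key : ∀ i j : Fin 5, i < j → ∃ (X : Type) (_ : NormedAddCommGroup X) (_ : NormedSpace ℝ X),
      ¬ (InClass (![some (-δ), some (-γ), none, some α, some β] i) X ↔
        InClass (![some (-δ), some (-γ), none, some α, some β] j) X) := by
    obtain ⟨a, a0, a1, a2⟩ := par α hα
    obtain ⟨b, b0, b1, b2⟩ := par β (by linarith)
    obtain ⟨c, c0, c1, c2⟩ := par γ hγ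
    obtain ⟨e, e0, e1, e2⟩ := par ((1 + α) / 2) (by linarith)
    have A1 : HasAngle (P a) α := angle_pos (P_UC a a1.le) (by linarith) a2.le
    have B1 : HasAngle (P b) β := angle_pos (P_UC b b1.le) (by linarith) b2.le
    have A2 : ¬ HasAngle (P a) β := P_not_pos a β a1 (by nlinarith)
    have E2 : ¬ HasAngle (P e) α := P_not_pos e α e1 (by nlinarith)
    have C1 : HasAngle (StrongDual ℝ (P c)) (-γ) := angle_neg c0 c1 (P_UC c c1.le) hγ.le c2.le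
    have C2 : ¬ HasAngle (StrongDual ℝ (P c)) (-δ) := D_not_neg c δ c0 c1 (by nlinarith)
    have A3 := P_not_neg a γ a1 hγ
    have A4 := P_not_neg a δ a1 (by linarith)
    have B3 := P_not_neg b γ b1 hγ
    have B4 := P_not_neg b δ b1 (by linarith)
    intro i j hij
    fin_cases i <;> fin_cases j <;> simp at hij
    · exact ⟨_, _, _, fun h => C2 (h.2 C1)⟩
    · exact ⟨_, _, _, fun h => A4 (h.2 trivial)⟩
    · exact ⟨_, _, _, fun h => A4 (h.2 A1)⟩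
    · exact ⟨_, _, _, fun h => B4 (h.2 B1)⟩
    · exact ⟨_, _, _, fun h => A3 (h.2 trivial)⟩
    · exact ⟨_, _, _, fun h => A3 (h.2 A1)⟩
    · exact ⟨_, _, _, fun h => B3 (h.2 B1)⟩
    · exact ⟨_, _, _, fun h => E2 (h.1 trivial)⟩
    · exact ⟨_, _, _, fun h => A2 (h.1 trivial)⟩
    · exact ⟨_, _, _, fun h => A2 (h.1 A1)⟩
  intro i j hij
  rcases lt_or_gt_of_ne hij with h | h
  · exact key i j h
  · obtain ⟨X, _, _, hX⟩ := key j i h
    exact ⟨X, _, _, fun h => hX h.symm⟩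

end Pool.Agent.Results.MP_843c3c_an.Angles
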